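import Pool.Agent.U79.GY.Stm
import Pool.Agent.N713.GB.CHI2

/-!
# Project GY (helper79), part CFG: the configuration of two integers
-/

set_option autoImplicit false

open scoped Classical

namespace Pool.Agent.U263.GY

open Finset hiding ext
open Pool.Agent.U79.GY (Cfg Hc Ok Sp In Mod cfg S_CFG)
open Pool.Agent.N713.GB (J_mod exists_neg)

variable {b c : ℤ} {M : ℕ}

theorem cop_mod {m q : ℕ} : Nat.Coprime (m % q) q ↔ Nat.Coprime m q := by
  rw [Nat.coprime_iff_gcd_eq_one, Nat.coprime_iff_gcd_eq_one, Nat.gcd_comm m q, Nat.gcd_rec q m]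

theorem mem_A {r : ℕ} : r ∈ (cfg b c M).A ↔ r < 4 * M ∧ Nat.Coprime r (4 * M) ∧
    jacobiSym b r = 1 ∧ jacobiSym c r = 1 := by
  show r ∈ (range (4 * M)).filter _ ↔ _
  rw [mem_filter, mem_range]

theorem mem_B {r : ℕ} : r ∈ (cfg b c M).B ↔ r < 4 * M ∧ Nat.Coprime r (4 * M) ∧
    jacobiSym b r = -1 ∧ jacobiSym c r = -1 := by
  show r ∈ (range (4 * M)).filter _ ↔ _
  rw [mem_filter, mem_range]

theorem cop_dvd (hM : Mod b c M) {m : ℕ} (h : Nat.Coprime m (4 * M)) :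
    Odd m ∧ Nat.Coprime m b.natAbs ∧ Nat.Coprime m c.natAbs := by
  have h2 : Nat.Coprime m M := h.coprime_dvd_right (Nat.dvd_mul_left _ 4)
  exact ⟨Nat.coprime_two_right.1 (h2.coprime_dvd_right hM.two), h2.coprime_dvd_right hM.hb,
    h2.coprime_dvd_right hM.hc⟩

theorem mod_sym (hM : Mod b c M) {m : ℕ} (h : Nat.Coprime m (4 * M)) :
    jacobiSym b (m % (4 * M)) = jacobiSym b m ∧ jacobiSym c (m % (4 * M)) = jacobiSym c m := by
  have ho := (cop_dvd hM h).1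
  have ho' := (cop_dvd hM (cop_mod.2 h)).1
  exact ⟨J_mod (Nat.mul_dvd_mul_left 4 hM.hb) ho' ho (Nat.mod_mod _ _),
    J_mod (Nat.mul_dvd_mul_left 4 hM.hc) ho' ho (Nat.mod_mod _ _)⟩

theorem mod_mem_A (hM : Mod b c M) {m : ℕ} : m % (4 * M) ∈ (cfg b c M).A ↔
    Nat.Coprime m (4 * M) ∧ jacobiSym b m = 1 ∧ jacobiSym c m = 1 := by
  have hp : 0 < 4 * M := Nat.mul_pos (by norm_num) hM.pos
  rw [mem_A, cop_mod]
  constructor
  · rintro ⟨-, h1, h2, h3⟩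
    obtain ⟨e1, e2⟩ := mod_sym hM h1
    exact ⟨h1, by rw [← e1, h2], by rw [← e2, h3]⟩
  · rintro ⟨h1, h2, h3⟩
    obtain ⟨e1, e2⟩ := mod_sym hM h1
    exact ⟨Nat.mod_lt _ hp, h1, by rw [e1, h2], by rw [e2, h3]⟩

theorem mod_mem_B (hM : Mod b c M) {m : ℕ} : m % (4 * M) ∈ (cfg b c M).B ↔
    Nat.Coprime m (4 * M) ∧ jacobiSym b m = -1 ∧ jacobiSym c m = -1 := by
  have hp : 0 < 4 * M := Nat.mul_pos (by norm_num) hM.pos
  rw [mem_B, cop_mod]
  constructor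
  · rintro ⟨-, h1, h2, h3⟩
    obtain ⟨e1, e2⟩ := mod_sym hM h1
    exact ⟨h1, by rw [← e1, h2], by rw [← e2, h3]⟩
  · rintro ⟨h1, h2, h3⟩
    obtain ⟨e1, e2⟩ := mod_sym hM h1
    exact ⟨Nat.mod_lt _ hp, h1, by rw [e1, h2], by rw [e2, h3]⟩

/-- a residue class -/
theorem exists_r (hM : Mod b c M) (hb : ¬ IsSquare b) (hc : ¬ IsSquare c) :
    ∃ m : ℕ, Nat.Coprime m (4 * M) ∧ jacobiSym b m = -1 ∧ jacobiSym c m = -1 := by
  have hp : 4 * M ≠ 0 := (Nat.mul_pos (by norm_num) hM.pos).ne'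
  obtain ⟨u, hu1, hu2, hu3⟩ := exists_neg hb (4 * M) hp
  obtain ⟨v, hv1, hv2, hv3⟩ := exists_neg hc (4 * M) hp
  have key : ∀ (x : ℤ) (m : ℕ), Nat.Coprime m x.natAbs → jacobiSym x m = 1 ∨ jacobiSym x m = -1 := by
    intro x m h
    refine (jacobiSym.trichotomy x m).resolve_left ?_
    apply jacobiSym.ne_zero
    rw [Int.gcd, Int.natAbs_natCast, Nat.gcd_comm]
    exact h
  rcases key c u (cop_dvd hM hu2).2.2 with h1 | h1
  · rcases key b v (cop_dvd hM hv2).2.1 with h2 | h2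
    · have hu0 : u ≠ 0 := by
        rintro rfl
        exact absurd hu1 (by decide)
      have hv0 : v ≠ 0 := by
        rintro rfl
        exact absurd hv1 (by decide)
      refine ⟨u * v, Nat.Coprime.mul_left hu2 hv2, ?_, ?_⟩
      · rw [jacobiSym.mul_right' b hu0 hv0, hu3, h2, mul_one]
      · rw [jacobiSym.mul_right' _ hu0 hv0, h1, hv3, one_mul]
    · exact ⟨v, hv2, h2, hv3⟩
  · exact ⟨u, hu2, hu3, h1⟩

theorem cfg_ok (hM : Mod b c M) (hb : ¬ IsSquare b) (hc : ¬ IsSquare c) : Ok (cfg b c M) where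
  q0 := Nat.mul_pos (by norm_num) hM.pos
  q8 := by
    obtain ⟨k, hk⟩ := hM.two
    exact ⟨k, by show 4 * M = 8 * k; omega⟩
  hA r hr := by
    obtain ⟨h1, h2, -⟩ := mem_A.1 hr
    exact ⟨h1, h2⟩
  hB r hr := by
    obtain ⟨h1, h2, h3, -⟩ := mem_B.1 hr
    refine ⟨h1, h2, fun h4 => ?_⟩
    rw [(mem_A.1 h4).2.2.1] at h3
    exact absurd h3 (by norm_num)
  hAn := by
    refine ⟨1, mem_A.2 ⟨?_, Nat.coprime_one_left _, ?_, ?_⟩⟩
    · have := hM.pos
      omega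
    · exact jacobiSym.one_right b
    · exact jacobiSym.one_right c
  hBn := by
    obtain ⟨m, hm⟩ := exists_r hM hb hc
    exact ⟨m % (4 * M), (mod_mem_B hM).2 hm⟩

theorem cop_iff (hM : Mod b c M) {p : ℕ} (hp : p.Prime) : Nat.Coprime p (4 * M) ↔ ¬ p ∣ M := by
  rw [Nat.Prime.coprime_iff_not_dvd hp]
  constructor
  · exact fun h h' => h (h'.mul_left 4)
  · intro h h'
    rcases (Nat.Prime.dvd_mul hp).1 h' with h1 | h1
    · have h3 : p ∣ 2 ^ 2 := h1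
      have h4 := (Nat.prime_dvd_prime_iff_eq hp Nat.prime_two).1 (hp.dvd_of_dvd_pow h3)
      exact h (h4 ▸ hM.two)
    · exact h h1

theorem ne_zero_of {x : ℤ} (hx : x.natAbs ∣ M) {p : ℕ} (h : ¬ p ∣ M) : (x : ZMod p) ≠ 0 := by
  intro h0
  exact h ((Int.natCast_dvd.1 ((ZMod.intCast_zmod_eq_zero_iff_dvd x p).1 h0)).trans hx)

theorem t_CFG : S_CFG := by
  intro b c M hM hb hc
  refine ⟨cfg_ok hM hb hc, fun p hp => ?_, fun p hp => ?_⟩
  · have : Fact p.Prime := ⟨hp⟩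
    unfold Sp Hc
    have h0 : (cfg b c M).Q = 4 * M := rfl
    rw [h0, mod_mem_A hM, cop_iff hM hp]
    constructor
    · rintro ⟨-, h1, h2, h3⟩
      rw [← jacobiSym.legendreSym.to_jacobiSym, legendreSym.eq_one_iff p (ne_zero_of hM.hb h1)] at h2
      rw [← jacobiSym.legendreSym.to_jacobiSym, legendreSym.eq_one_iff p (ne_zero_of hM.hc h1)] at h3
      exact ⟨h1, h2, h3⟩
    · rintro ⟨h1, h2, h3⟩
      rw [← jacobiSym.legendreSym.to_jacobiSym, ← jacobiSym.legendreSym.to_jacobiSym,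
        legendreSym.eq_one_iff p (ne_zero_of hM.hb h1), legendreSym.eq_one_iff p (ne_zero_of hM.hc h1)]
      exact ⟨hp, h1, h2, h3⟩
  · have : Fact p.Prime := ⟨hp⟩
    unfold In
    have h0 : (cfg b c M).Q = 4 * M := rfl
    rw [h0, mod_mem_B hM, cop_iff hM hp, ← jacobiSym.legendreSym.to_jacobiSym,
      ← jacobiSym.legendreSym.to_jacobiSym, legendreSym.eq_neg_one_iff, legendreSym.eq_neg_one_iff]
    exact ⟨fun h => h.2, fun h => ⟨hp, h⟩⟩

end Pool.Agent.U263.GY
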